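import Mathlib
import Pool.Agent.Helper953_TT.Final

set_option autoImplicit false

/-!
# The fractional chromatic number of `F`-free graphs, `F` three-colourable

Let `F` be a finite graph with `χ(F) ≤ 3`.  Every `F`-free graph of maximum degree at most `Δ` has
fractional chromatic number at most `(1 + o(1)) Δ / log Δ`, with the same constant `1` for all `F`.

Idea.  An `F`-free graph `G` is `K_{t,t,t}`-free, so every `K_{t,t}` of `G` has fewer than `t` common
neighbours.  Take the hard-core model on (what is left of) `G` with a fugacity that tends to zero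
slowly.  Revealing most likely vertices of the free neighbourhood of a vertex until its partition
function is at most `Δ^(1 - ε)`, the local occupancy bound for `K_{t,t}`-free neighbourhoods applies
unless a `K_{t,t}` survives; on average over all vertices of comparable weight this is rare, since
every `K_{t,t}` has few common neighbours.  A greedy fractional colouring in continuous time and
linear programming duality give the theorem.
-/

namespace Pool.Agent.Results.MP_349e33_co.FractionalThreeColourable

/-- If `F` is a finite graph with `χ(F) ≤ 3` and `ε > 0` then, for all large `Δ`, every finite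
`F`-free graph `G` of maximum degree at most `Δ` has fractional chromatic number at most
`(1 + ε) Δ / log Δ`: there are weights `x I ≥ 0` on the independent sets `I` of `G`, of total at
most `(1 + ε) Δ / log Δ`, such that the sets that contain `v` have total weight at least `1`, for
every vertex `v`. -/
theorem result {W : Type} [Fintype W] (F : SimpleGraph W) (hF : F.Colorable 3) (ε : ℝ)
    (hε : 0 < ε) :
    ∃ Δ₀ : ℕ, ∀ Δ : ℕ, Δ₀ ≤ Δ → ∀ (V : Type) [Fintype V] [DecidableEq V] (G : SimpleGraph V),
      F.Free G → (∀ v, (G.neighborSet v).ncard ≤ Δ) →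
      ∃ x : Finset V → ℝ, (∀ I, 0 ≤ x I) ∧ (∀ I, x I ≠ 0 → G.IsIndepSet (I : Set V)) ∧
        (∀ v, 1 ≤ ∑ I : Finset V, if v ∈ I then x I else 0) ∧
        ∑ I : Finset V, x I ≤ (1 + ε) * ((Δ : ℝ) / Real.log Δ) := by
  obtain ⟨D0, hD0⟩ := Pool.Agent.Helper953TT.fractional F hF ε hε
  refine ⟨D0, fun Δ hΔ V _ _ G hfree hdeg => ?_⟩
  obtain ⟨⟨x, h1, h2, h3, h4⟩, _⟩ := hD0 Δ hΔ V G hfree hdeg
  refine ⟨x, h1, h2, fun v => ?_, h4⟩
  convert h3 v

end Pool.Agent.Results.MP_349e33_co.FractionalThreeColourable
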