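import Mathlib
import Pool.Agent.H752.CFGlue

set_option autoImplicit false

/-!
# `c(F) ≤ k` for tree-like gluings along `k` vertices of pieces with one vertex of the third colour

Let `F` be a finite graph with a proper colouring with the colours `0, 1, 2`, composed in a tree-like
way of pieces, each of which has at most one vertex of colour `2` (so the pieces are almost bipartite,
otherwise arbitrary), glued along sets of at most `k` vertices (the rims). If `k = 1`, or if no rim
with exactly `k` vertices is monochromatic, then `c(F) ≤ k`.

`k = 1`: if `F` has a proper `3`-colouring such that every block has at most one vertex of the third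
colour then `c(F) ≤ 1` (for instance all cacti).
`k = 2`: gluing along vertices, edges, and pairs of vertices with different colours gives
`c(F) ≤ 2`; the graphs of treewidth at most two are the case of pieces with three vertices.
`k + 1` in place of `k`: arbitrary rims of at most `k` vertices give `c(F) ≤ k + 1`.

Idea. The theorem on tree-like gluing of subgraphs of one graph `H` along connected sets is applied to
`H = K_{1,t,t}`. A monochromatic rim is made connected by a new isolated vertex, which is added to `F`
and belongs only to the two pieces that are glued there; it is mapped to a vertex of the other side of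
`H` which is not used for anything else.
-/

namespace Pool.Agent.Results.MP_349e33_co.OneThirdColourPerPiece

open Pool.Agent.TH855
open scoped ENNReal

/-- `Composed F m B P`: the sets `B 0, …, B (m - 1)` of vertices (the pieces) cover the vertices and
the edges of `F`, and every piece `B i` with `i > 0` meets the union of the earlier pieces inside one
earlier piece `B j`, where the set `B i ∩ B j` (the rim) has the property `P`. -/
def Composed {W : Type} (F : SimpleGraph W) (m : ℕ) (B : ℕ → Set W) (P : Set W → Prop) : Prop :=
  (∀ w, ∃ i < m, w ∈ B i) ∧ (∀ a b, F.Adj a b → ∃ i < m, a ∈ B i ∧ b ∈ B i) ∧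
    ∀ i < m, 0 < i → ∃ j < i, (∀ l < i, B i ∩ B l ⊆ B j) ∧ P (B i ∩ B j)

/-- `Small C k R`: the set `R` has at most `k` vertices, and if it has exactly `k` vertices then
`k = 1` or two of them have different colours. -/
def Small {W : Type} (C : W → Fin 3) (k : ℕ) (R : Set W) : Prop :=
  R.ncard ≤ k ∧ (R.ncard = k → k = 1 ∨ ∃ a ∈ R, ∃ b ∈ R, C a ≠ C b)

/-- **`c(F) ≤ k`** if the finite graph `F` with the proper colouring `C` is composed in a tree-like
way of pieces with at most one vertex of colour `2` each, and the rims have at most `k` vertices and
are not monochromatic if they have exactly `k ≥ 2` vertices. -/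
theorem result {W : Type} [Fintype W] (F : SimpleGraph W) (C : F.Coloring (Fin 3)) (k m : ℕ)
    (hk : 1 ≤ k) (B : ℕ → Set W) (hF : Composed F m B (Small C k))
    (hB : ∀ i < m, ∀ a ∈ B i, ∀ b ∈ B i, C a = 2 → C b = 2 → a = b) : c F ≤ k := by
  obtain ⟨h1, h2, h3⟩ := hF
  refine Pool.Agent.H752.CFGlue.main F C k hk m B h1 h2 hB ?_
  intro i hi hi0
  obtain ⟨j, hj, h4, h5, h6⟩ := h3 i hi hi0
  exact ⟨j, hj, h4, h5, h6⟩

end Pool.Agent.Results.MP_349e33_co.OneThirdColourPerPiece
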