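import Mathlib
import Pool.Agent.H752.CFGlueB
import Pool.Agent.H752.CFGlueE

set_option autoImplicit false

/-!
# Uniform bounds for `c(F)`: tree-like gluing of pieces with small degrees in the third colour class

Let `F` be a finite graph with a proper colouring with the colours `0, 1, 2`, composed in a tree-like
way of pieces, glued along sets of at most `k` vertices. If every vertex of colour `2` has at most `d`
neighbours in every piece, except for at most one exceptional vertex per piece, then
`c(F) ≤ 2 (k + 2) ((k + 1) (d + 1) + 1)`, whatever the number and the size of the pieces, and the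
degrees of `F`. In particular `c` is bounded on the `3`-colourable graphs of bounded treewidth: there
`c(F) ≤ 2 (w + 2) ^ 2`.

Idea. Let `x` be an ordinary vertex of colour `2`. Its neighbours outside of the first piece that
contains `x` are new vertices of pieces that meet the earlier ones in at most `k` vertices, `x` being
one of them; so every piece contains at most `k (d + 1)` such neighbours, for all `x` together, and
they can be mapped to a bounded set of labels, injectively on every piece. This maps `F` to a graph
`H` in which the ordinary vertices of the third class have bounded degree, one further vertex of this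
class (for the exceptional vertices) is adjacent to everything else, and the rest is bipartite. Such a
graph is composed of pieces with one vertex of the third colour along bounded rims, which gives a
bound for `c(H)`; and `c(F) ≤ (k + 2) c(H)` by the theorem on tree-like gluing.
-/

namespace Pool.Agent.Results.MP_349e33_co.SmallThirdColourDegrees

open Pool.Agent.TH855
open scoped ENNReal

/-- `Composed F k m B`: the sets `B 0, …, B (m - 1)` of vertices (the pieces) cover the vertices and
the edges of `F`, and every piece `B i` with `i > 0` meets the union of the earlier pieces inside one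
earlier piece `B j`, and has at most `k` vertices in common with `B j`. -/
def Composed {W : Type} (F : SimpleGraph W) (k m : ℕ) (B : ℕ → Set W) : Prop :=
  (∀ w, ∃ i < m, w ∈ B i) ∧ (∀ a b, F.Adj a b → ∃ i < m, a ∈ B i ∧ b ∈ B i) ∧
    ∀ i < m, 0 < i → ∃ j < i, (∀ l < i, B i ∩ B l ⊆ B j) ∧ (B i ∩ B j).ncard ≤ k

/-- **Uniform bounds for `c(F)`.** Let the finite graph `F` with the proper colouring `C` be composed
in a tree-like way of pieces, glued along sets of at most `k` vertices, let `Y` be a set of vertices
with at most one vertex in every piece, and suppose that every vertex of colour `2` that is not in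
`Y` has at most `d` neighbours in every piece that contains it. Then
`c(F) ≤ 2 (k + 2) ((k + 1) (d + 1) + 1)`. For `3`-colourable graphs of treewidth at most `w` one has
`c(F) ≤ 2 (w + 2) ^ 2`. -/
theorem result :
    (∀ {W : Type} [Fintype W] (F : SimpleGraph W) (C : F.Coloring (Fin 3)) (k d m : ℕ)
      (B : ℕ → Set W) (Y : Set W), Composed F k m B →
      (∀ i < m, ∀ a ∈ B i, ∀ b ∈ B i, a ∈ Y → b ∈ Y → a = b) →
      (∀ i < m, ∀ a ∈ B i, C a = 2 → a ∉ Y → {b | b ∈ B i ∧ F.Adj a b}.ncard ≤ d) →
      c F ≤ 2 * (k + 2) * ((k + 1) * (d + 1) + 1)) ∧
    ∀ {W : Type} [Fintype W] (F : SimpleGraph W) (w : ℕ), F.Colorable 3 → TreewidthLe F w →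
      c F ≤ 2 * (w + 2) ^ 2 := by
  refine ⟨?_, fun F w h1 h2 => Pool.Agent.H752.CFGlue.mainTW F h1 w h2⟩
  intro W _ F C k d m B Y hF hY hd
  obtain ⟨h1, h2, h3⟩ := hF
  exact Pool.Agent.H752.CFGlue.mainE F C Y k d m B h1 h2 hY hd h3

end Pool.Agent.Results.MP_349e33_co.SmallThirdColourDegrees
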